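import Pool.Agent.H81.HS.Assemble
import Pool.Agent.H81.HS.Param
import Pool.Agent.H81.HS.Deriv

set_option autoImplicit false

/-!
# Heat smoothing on the Hamming cube at a rate linear in the degree up to logarithms

For every `p > 2` there is `c > 0` such that `‖Δ f‖_p ≥ c d (log (d + 2))^{-4} ‖f‖_p` for all
functions on the Hamming cube whose Walsh coefficients of degree below `d` vanish.
-/

namespace Pool.Agent.Results.MP_a2e4e3_an.NearLinear

open Finset Pool.Agent.H81.HS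

theorem result :
    ∀ p : ℝ, 2 < p → ∃ c : ℝ, 0 < c ∧ ∀ d : ℕ, 1 ≤ d → ∀ n : ℕ, ∀ f : (Fin n → Bool) → ℝ,
      (∀ S : Finset (Fin n), S.card < d →
        ∑ x : Fin n → Bool, f x * ∏ i ∈ S, (if x i then (-1 : ℝ) else 1) = 0) →
      c * ((d : ℝ) / (Real.log ((d : ℝ) + 2)) ^ 4) *
          ((∑ x : Fin n → Bool, |f x| ^ p) / (2 : ℝ) ^ n) ^ (1 / p) ≤
        ((∑ x : Fin n → Bool,
            |∑ i : Fin n, (f x - f (Function.update x i (!x i))) / 2| ^ p) / (2 : ℝ) ^ n) ^
          (1 / p) := by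
  intro p hp
  obtain ⟨κ, hκ, hP⟩ := params hp
  refine ⟨1 / (4 * κ), by positivity, ?_⟩
  intro d hd n f hf
  have hp0 : 0 < p := by linarith
  obtain ⟨P, hPt, hPρ, hPs⟩ := hP d hd
  have hco : ∀ S : Finset (Fin n), S.card < d → co f S = 0 := by
    intro S hS
    unfold co chi sg
    rw [hf S hS, zero_div]
  have hhalf := half P hp rfl rfl hPρ rfl hPs hco
  have hd0 : (0:ℝ) < d := by exact_mod_cast hd
  have hlog : 0 < Real.log ((d : ℝ) + 2) := Real.log_pos (by linarith)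
  have ht0 : 0 < 2 * P.t := by have := P.ht; linarith
  have hsub := sub_le (p := p) (by linarith) ht0 f
  set N : ℝ := ∑ x, |f x| ^ p with hN
  set G : ℝ := ∑ x, |gen f x| ^ p with hG
  have hN0 : 0 ≤ N := Finset.sum_nonneg fun x _ => by positivity
  have hG0 : 0 ≤ G := Finset.sum_nonneg fun x _ => by positivity
  -- Minkowski
  have hMink : N ^ (1 / p) ≤ (∑ x, |f x - T (Real.exp (-(2 * P.t))) f x| ^ p) ^ (1 / p) +
      (∑ x, |T (Real.exp (-(2 * P.t))) f x| ^ p) ^ (1 / p) := by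
    have := Real.Lp_add_le (s := (Finset.univ : Finset (Fin n → Bool)))
      (f := fun x => f x - T (Real.exp (-(2 * P.t))) f x)
      (g := fun x => T (Real.exp (-(2 * P.t))) f x) (p := p) (by linarith)
    simpa only [sub_add_cancel] using this
  have hTle : (∑ x, |T (Real.exp (-(2 * P.t))) f x| ^ p) ^ (1 / p) ≤ 1 / 2 * N ^ (1 / p) := by
    calc (∑ x, |T (Real.exp (-(2 * P.t))) f x| ^ p) ^ (1 / p)
        ≤ ((1 / 2) ^ p * N) ^ (1 / p) :=
          Real.rpow_le_rpow (Finset.sum_nonneg fun x _ => by positivity) hhalf (by positivity)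
      _ = 1 / 2 * N ^ (1 / p) := by
          rw [Real.mul_rpow (by positivity) hN0, ← Real.rpow_mul (by norm_num),
            mul_one_div_cancel hp0.ne', Real.rpow_one]
  have hmain : 1 / 2 * N ^ (1 / p) ≤ 2 * P.t * G ^ (1 / p) := by linarith
  have hkey : 1 / (4 * κ) * ((d : ℝ) / (Real.log ((d : ℝ) + 2)) ^ 4) * N ^ (1 / p) ≤
      G ^ (1 / p) := by
    rw [hPt] at hmain
    have e1 : 1 / (4 * κ) * ((d : ℝ) / (Real.log ((d : ℝ) + 2)) ^ 4) * N ^ (1 / p) =
        ((d : ℝ) / (2 * κ * (Real.log ((d : ℝ) + 2)) ^ 4)) * (1 / 2 * N ^ (1 / p)) := by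
      field_simp; ring
    rw [e1]
    calc ((d : ℝ) / (2 * κ * (Real.log ((d : ℝ) + 2)) ^ 4)) * (1 / 2 * N ^ (1 / p))
        ≤ ((d : ℝ) / (2 * κ * (Real.log ((d : ℝ) + 2)) ^ 4)) *
          (2 * (κ * (Real.log ((d : ℝ) + 2)) ^ 4 / d) * G ^ (1 / p)) :=
          mul_le_mul_of_nonneg_left hmain (by positivity)
      _ = G ^ (1 / p) := by field_simp
  have hGeq : ∑ x : Fin n → Bool,
      |∑ i : Fin n, (f x - f (Function.update x i (!x i))) / 2| ^ p = G := rfl
  rw [hGeq, Real.div_rpow hN0 (by positivity), Real.div_rpow hG0 (by positivity), ← mul_div_assoc]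
  exact div_le_div_of_nonneg_right hkey (by positivity)

end Pool.Agent.Results.MP_a2e4e3_an.NearLinear
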